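import Mathlib
import Pool.Agent.R699.Brachy

/-!
# Brachymorphisms of unital non-associative rings

A brachymorphism defined on a unital non-associative ring need not be additive, even if the ring is
commutative; but it is additive if the ring is finite, or more generally if for every element `u`
the descending chain of the images of the powers of the left multiplication by `u` stabilises.

The counterexample (the file `Pool/Agent/R699/Brachy.lean`): `V` is the free commutative
non-associative algebra without unit on two generators over the field `𝔽₂`, `R` is its unitization,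
`S` is the ring of dual numbers over `𝔽₂`, and `f(α + v) = α + δ(v)ε` for a suitable `δ : V → 𝔽₂`.

Idea for the second part. Let `z = f(u+y) - f(u) - f(y)` and let `T` be the left multiplication
by `f(u)`. If the chain of the images of the powers of the left multiplication `L` by `u` stabilises,
then `L^n y = L^{n+1} a` for some `a`, and `L^n u = L^{n+1} 1`, so `T^n z = 0`. The same for `1 + u`
in place of `u` gives `(1 + T)^m z = 0`, hence `z = 0`.
-/

set_option autoImplicit false

namespace Pool.Agent.Results.MP_041051_al.Settled

universe u v w

/-- A brachymorphism: a map preserving the successor map `x ↦ 1 + x` and the multiplication. -/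
structure IsBrachymorphism {R : Type u} {S : Type v} [NonAssocRing R] [NonAssocRing S]
    (f : R → S) : Prop where
  one_add : ∀ x, f (1 + x) = 1 + f x
  mul : ∀ x y, f (x * y) = f x * f y

/-- The descending chain of the images of the powers of the left multiplication by `a`
stabilises. -/
def LeftStable {R : Type u} [NonAssocRing R] (a : R) : Prop :=
  ∃ n : ℕ, Set.range ((fun x => a * x)^[n + 1]) = Set.range ((fun x => a * x)^[n])

/-- The descending chain of the images of the powers of the right multiplication by `a`
stabilises. -/
def RightStable {R : Type u} [NonAssocRing R] (a : R) : Prop :=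
  ∃ n : ℕ, Set.range ((fun x => x * a)^[n + 1]) = Set.range ((fun x => x * a)^[n])

section main

variable {R : Type u} {S : Type v} [NonAssocRing R] [NonAssocRing S] {f : R → S}

lemma map_iterate (hf : IsBrachymorphism f) (a : R) (n : ℕ) (x : R) :
    f ((fun x => a * x)^[n] x) = (fun x => f a * x)^[n] (f x) := by
  induction n generalizing x with
  | zero => rfl
  | succ n ih => rw [Function.iterate_succ_apply, Function.iterate_succ_apply, ih, hf.mul]

lemma iterate_add (a : R) (n : ℕ) (x y : R) :
    (fun x => a * x)^[n] (x + y) = (fun x => a * x)^[n] x + (fun x => a * x)^[n] y := by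
  induction n generalizing x y with
  | zero => rfl
  | succ n ih =>
    rw [Function.iterate_succ_apply, Function.iterate_succ_apply, Function.iterate_succ_apply,
      mul_add, ih]

/-- left multiplication by `a` -/
def lm {R : Type u} [NonAssocRing R] (a : R) : AddMonoid.End R := AddMonoidHom.mulLeft a

lemma iterate_eq (a : R) (n : ℕ) (x : R) : (fun x => a * x)^[n] x = (lm a ^ n) x := by
  induction n generalizing x with
  | zero => rfl
  | succ n ih =>
    rw [Function.iterate_succ_apply, ih, pow_succ]
    rfl

/-- the defect of additivity is killed by a power of the left multiplication by `f a` -/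
lemma killed (hf : IsBrachymorphism f) {a : R} (ha : LeftStable a) (y : R) :
    ∃ n : ℕ, (lm (f a) ^ n) (f (a + y) - f a - f y) = 0 := by
  obtain ⟨n, hn⟩ := ha
  refine ⟨n, ?_⟩
  obtain ⟨b, hb⟩ : (fun x => a * x)^[n] y ∈ Set.range ((fun x => a * x)^[n + 1]) := by
    rw [hn]
    exact ⟨y, rfl⟩
  have h1 : (fun x => a * x)^[n + 1] 1 = (fun x => a * x)^[n] a := by
    rw [Function.iterate_succ_apply, mul_one]
  have key : f ((fun x => a * x)^[n] (a + y)) =
      f ((fun x => a * x)^[n] a) + f ((fun x => a * x)^[n] y) := by
    rw [iterate_add, ← h1, ← hb, ← iterate_add, map_iterate hf, map_iterate hf, map_iterate hf,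
      hf.one_add, iterate_add]
    congr 2
    have := hf.one_add 0
    have h0 : f 0 = 0 := by
      have h2 := hf.mul 0 0
      have h3 := hf.mul 0 (1 + 0)
      rw [hf.one_add, mul_add, mul_one, mul_add, mul_one, mul_zero, add_zero, ← hf.mul, mul_zero]
        at h3
      simpa using h3
    rw [add_zero, h0, add_zero] at this
    exact this.symm
  rw [map_sub, map_sub, ← iterate_eq, ← iterate_eq, ← iterate_eq, ← map_iterate hf,
    ← map_iterate hf, ← map_iterate hf, key]
  abel

/-- **Additivity.** If the chains for `a` and `1 + a` stabilise, then `f` is additive on all pairs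
`(a, y)`. -/
lemma additive_left (hf : IsBrachymorphism f) {a : R} (ha : LeftStable a)
    (ha' : LeftStable (1 + a)) (y : R) : f (a + y) = f a + f y := by
  obtain ⟨n, hn⟩ := killed hf ha y
  obtain ⟨m, hm⟩ := killed hf ha' y
  set z := f (a + y) - f a - f y with hz
  have hz' : f (1 + a + y) - f (1 + a) - f y = z := by
    rw [add_assoc, hf.one_add, hf.one_add, hz]
    abel
  rw [hz', hf.one_add] at hm
  let T : AddMonoid.End S := lm (f a)
  have hT : lm (1 + f a) = 1 + T := by
    ext x
    change (1 + f a) * x = x + f a * x
    rw [add_mul, one_mul]
  rw [hT] at hm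
  have hcop : IsCoprime (Polynomial.X ^ n : Polynomial ℤ) ((1 + Polynomial.X) ^ m) :=
    IsCoprime.pow ⟨-1, 1, by ring⟩
  obtain ⟨p, q, hpq⟩ := hcop
  have h1 := congrArg (Polynomial.aeval T) hpq
  rw [map_add, map_mul, map_mul, map_pow, map_pow, map_add, map_one, Polynomial.aeval_X] at h1
  have h2 : z = (Polynomial.aeval T p) ((T ^ n) z) + (Polynomial.aeval T q) (((1 + T) ^ m) z) := by
    have := congrArg (fun g : AddMonoid.End S => g z) h1
    exact this.symm
  rw [show (T ^ n) z = 0 from hn, hm, map_zero, map_zero, add_zero] at h2
  rw [hz, sub_sub, sub_eq_zero] at h2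
  exact h2

open MulOpposite in
lemma additive_right (hf : IsBrachymorphism f) {a : R} (ha : RightStable a)
    (ha' : RightStable (1 + a)) (y : R) : f (a + y) = f a + f y := by
  have hg : IsBrachymorphism (fun x : Rᵐᵒᵖ => op (f (unop x))) :=
    { one_add := fun x => by
        rw [unop_add, unop_one, hf.one_add, op_add, op_one]
      mul := fun x y => by
        rw [unop_mul, hf.mul, op_mul] }
  have hst : ∀ b : R, RightStable b → LeftStable (op b) := by
    rintro b ⟨n, hn⟩
    refine ⟨n, ?_⟩
    have key : ∀ (n : ℕ) (x : Rᵐᵒᵖ), (fun x => op b * x)^[n] x =
        op ((fun x => x * b)^[n] (unop x)) := by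
      intro n
      induction n with
      | zero => intro x; rfl
      | succ n ih =>
        intro x
        rw [Function.iterate_succ_apply, Function.iterate_succ_apply, ih]
        rfl
    have key2 : ∀ n : ℕ, Set.range ((fun x => op b * x)^[n]) =
        unop ⁻¹' Set.range ((fun x => x * b)^[n]) := by
      intro n
      ext x
      constructor
      · rintro ⟨y, rfl⟩
        exact ⟨unop y, by rw [key, unop_op]⟩
      · rintro ⟨y, hy⟩
        exact ⟨op y, by rw [key, unop_op, hy, op_unop]⟩
    rw [key2, key2, hn]
  have h1 := additive_left hg (hst a ha) (by
    have := hst (1 + a) ha'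
    rwa [op_add, op_one] at this) (op y)
  exact op_injective (by simpa using h1)

end main

/-- In a ring which is an Artinian module over a ring `k` acting by elements commuting with all
left multiplications the chains of images of left multiplications stabilise. -/
lemma leftStable_of_isArtinian (k : Type w) {R : Type u} [Ring k] [NonAssocRing R] [Module k R]
    [SMulCommClass k R R] [IsArtinian k R] (a : R) : LeftStable a := by
  let L : R →ₗ[k] R :=
    { toFun := fun x => a * x
      map_add' := fun x y => mul_add a x y
      map_smul' := fun c x => (smul_comm c a x).symm }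
  have hL : ∀ n : ℕ, Set.range ((fun x => a * x)^[n]) = (LinearMap.range (L ^ n) : Set R) := by
    intro n
    ext x
    rw [LinearMap.coe_range, Module.End.coe_pow]
    rfl
  obtain ⟨n, hn⟩ := IsArtinian.monotone_stabilizes (LinearMap.iterateRange L)
  refine ⟨n, ?_⟩
  rw [hL, hL]
  have := hn (n + 1) (Nat.le_succ n)
  exact congrArg SetLike.coe (show LinearMap.range (L ^ (n + 1)) = LinearMap.range (L ^ n) from
    (congrArg OrderDual.ofDual this).symm)

lemma rightStable_of_isArtinian (k : Type w) {R : Type u} [Ring k] [NonAssocRing R] [Module k R]
    [IsScalarTower k R R] [IsArtinian k R] (a : R) : RightStable a := by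
  let L : R →ₗ[k] R :=
    { toFun := fun x => x * a
      map_add' := fun x y => add_mul x y a
      map_smul' := fun c x => smul_mul_assoc c x a }
  have hL : ∀ n : ℕ, Set.range ((fun x => x * a)^[n]) = (LinearMap.range (L ^ n) : Set R) := by
    intro n
    ext x
    rw [LinearMap.coe_range, Module.End.coe_pow]
    rfl
  obtain ⟨n, hn⟩ := IsArtinian.monotone_stabilizes (LinearMap.iterateRange L)
  refine ⟨n, ?_⟩
  rw [hL, hL]
  have := hn (n + 1) (Nat.le_succ n)
  exact congrArg SetLike.coe (show LinearMap.range (L ^ (n + 1)) = LinearMap.range (L ^ n) from
    (congrArg OrderDual.ofDual this).symm)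

/-- **Main result.** (1) There is a brachymorphism between unital non-associative rings which is not
additive. Here both rings can even be commutative and of characteristic two, and the target ring
associative. (2) Every brachymorphism from a unital non-associative ring `R` to a unital
non-associative ring is additive if for all `a ∈ R` the descending chain of the images of the
powers of the left multiplication by `a` stabilises, and likewise for right multiplications. In
particular this holds (3) if `R` is finite, (4) if `R` is an Artinian module over some ring of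
operators commuting with the left multiplications, or over some ring of operators commuting with the
right multiplications (for example, if `R` is a finite-dimensional algebra over a field). -/
theorem result :
    (∃ (R S : Type) (_ : NonAssocRing R) (_ : CommRing S) (f : R → S),
      (∀ x y : R, x * y = y * x) ∧ (∀ x : R, x + x = 0) ∧ (∀ x : S, x + x = 0) ∧
        IsBrachymorphism f ∧ ∃ x y, f (x + y) ≠ f x + f y) ∧
    (∀ (R : Type u) (S : Type v) [NonAssocRing R] [NonAssocRing S] (f : R → S),
      IsBrachymorphism f → ((∀ a : R, LeftStable a) ∨ (∀ a : R, RightStable a)) →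
        ∀ x y, f (x + y) = f x + f y) ∧
    (∀ (R : Type u) (S : Type v) [NonAssocRing R] [NonAssocRing S] [Finite R] (f : R → S),
      IsBrachymorphism f → ∀ x y, f (x + y) = f x + f y) ∧
    (∀ (k : Type w) (R : Type u) (S : Type v) [Ring k] [NonAssocRing R] [NonAssocRing S]
      [Module k R] [IsArtinian k R] (f : R → S), (SMulCommClass k R R ∨ IsScalarTower k R R) →
        IsBrachymorphism f → ∀ x y, f (x + y) = f x + f y) := by
  refine ⟨?_, ?_, ?_, ?_⟩
  · obtain ⟨f, h1, h2, h3⟩ := Pool.Agent.R699.Brachy.main
    refine ⟨Pool.Agent.R699.Brachy.R, DualNumber (ZMod 2), inferInstance, inferInstance, f,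
      Pool.Agent.R699.Brachy.R_comm, fun x => ?_, fun x => ?_, ⟨h1, h2⟩, h3⟩
    · apply Unitization.ext
      · exact CharTwo.add_self_eq_zero x.fst
      · exact Pool.Agent.R699.Brachy.add_self' x.snd
    · apply TrivSqZeroExt.ext
      · exact CharTwo.add_self_eq_zero x.fst
      · exact CharTwo.add_self_eq_zero x.snd
  · intro R S _ _ f hf h x y
    rcases h with h | h
    · exact additive_left hf (h x) (h _) y
    · exact additive_right hf (h x) (h _) y
  · intro R S _ _ _ f hf x y
    have h := fun a : R => leftStable_of_isArtinian ℤ a
    exact additive_left hf (h x) (h _) y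
  · intro k R S _ _ _ _ _ f h hf x y
    rcases h with h | h
    · exact additive_left hf (leftStable_of_isArtinian k x) (leftStable_of_isArtinian k _) y
    · exact additive_right hf (rightStable_of_isArtinian k x) (rightStable_of_isArtinian k _) y

end Pool.Agent.Results.MP_041051_al.Settled
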